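import Mathlib
import Pool.Agent.Y817.ISO.Stm

/-!
# ISO, part GRAPH: a finite set of affine rules whose graph defines a c.e. equivalence relation
-/

set_option autoImplicit false

namespace Pool.Agent.X235.ISO.Graph

open Pool.Agent.Y817.ISO Pool.Agent.Helper844.Sys

/-- One rule, with an arbitrary finite index type of the parameters. -/
structure Rule (P J : Type) : Type 1 where
  Y : Type
  fin : Fintype Y
  src : P
  tgt : P
  μ : (Y → ℤ) →+ (J → ℤ)
  ν : (Y → ℤ) →+ (J → ℤ)
  a : J → ℤ
  b : J → ℤ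
  μ_inj : Function.Injective μ
  ν_inj : Function.Injective ν

/-- Reindexing. -/
noncomputable def re (Y : Type) [Fintype Y] : (Fin (Fintype.card Y) → ℤ) ≃+ (Y → ℤ) :=
  AddEquiv.arrowCongr (Fintype.equivFin Y).symm (AddEquiv.refl ℤ)

/-- The rules. -/
noncomputable def toRules {P ι J : Type} (r : ι → Rule P J) : Rules P ι J where
  dim i := letI := (r i).fin; Fintype.card (r i).Y
  src i := (r i).src
  tgt i := (r i).tgt
  μ i := letI := (r i).fin; (r i).μ.comp (re (r i).Y).toAddMonoidHom
  ν i := letI := (r i).fin; (r i).ν.comp (re (r i).Y).toAddMonoidHom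
  a i := (r i).a
  b i := (r i).b
  μ_inj i := by
    let _ := (r i).fin
    exact (r i).μ_inj.comp (re (r i).Y).injective
  ν_inj i := by
    let _ := (r i).fin
    exact (r i).ν_inj.comp (re (r i).Y).injective

theorem step_mk {P ι J : Type} (r : ι → Rule P J) (i : ι) (y : (r i).Y → ℤ) :
    Step (toRules r) ((r i).src, (r i).μ y + (r i).a) ((r i).tgt, (r i).ν y + (r i).b) := by
  let _ := (r i).fin
  have h := Step.mk (D := toRules r) i ((re (r i).Y).symm y)
  have e1 : (toRules r).μ i ((re (r i).Y).symm y) = (r i).μ y := by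
    show (r i).μ ((re (r i).Y) ((re (r i).Y).symm y)) = _
    rw [AddEquiv.apply_symm_apply]
  have e2 : (toRules r).ν i ((re (r i).Y).symm y) = (r i).ν y := by
    show (r i).ν ((re (r i).Y) ((re (r i).Y).symm y)) = _
    rw [AddEquiv.apply_symm_apply]
  rw [e1, e2] at h
  exact h

theorem step_inv {P ι J : Type} (r : ι → Rule P J) {u v : P × (J → ℤ)}
    (h : Step (toRules r) u v) : ∃ (i : ι) (y : (r i).Y → ℤ),
      u = ((r i).src, (r i).μ y + (r i).a) ∧ v = ((r i).tgt, (r i).ν y + (r i).b) := by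
  obtain ⟨i, w⟩ := h
  let _ := (r i).fin
  exact ⟨i, re (r i).Y w, rfl, rfl⟩

/-! ### The states -/

inductive St (l : ℕ) : Type
  | base : St l
  | stage (j : Fin (l + 1)) : St l
  | mid (j : Fin l) : St l
  deriving Fintype

inductive Ix (X : Type) (l : ℕ) : Type
  | b0 : Ix X l
  | s0 (x : X) : Ix X l
  | inM (j : Fin l) : Ix X l
  | loop (j : Fin l) : Ix X l
  | outM (j : Fin l) : Ix X l
  | sl (x : X) : Ix X l
  | bl : Ix X l
  deriving Fintype

/-- The coordinates. -/
abbrev Co (X : Type) : Type := X ⊕ Bool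

/-- Vectors with prescribed counters. -/
def ve {X : Type} (v : X → ℤ) (s t : ℤ) : Co X → ℤ :=
  Sum.elim v (fun b => if b then t else s)

theorem ve_add {X : Type} (v v' : X → ℤ) (s t s' t' : ℤ) :
    ve v s t + ve v' s' t' = ve (v + v') (s + s') (t + t') := by
  funext x
  rcases x with x | x
  · simp [ve]
  · cases x <;> simp [ve]

theorem ve_inj {X : Type} {v v' : X → ℤ} {s t s' t' : ℤ} (h : ve v s t = ve v' s' t') :
    v = v' ∧ s = s' ∧ t = t' := by
  refine ⟨funext fun x => congrFun h (Sum.inl x), ?_, ?_⟩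
  · simpa [ve] using congrFun h (Sum.inr false)
  · simpa [ve] using congrFun h (Sum.inr true)

theorem ve_eta {X : Type} (w : Co X → ℤ) :
    ve (fun x => w (Sum.inl x)) (w (Sum.inr false)) (w (Sum.inr true)) = w := by
  funext x
  rcases x with x | x
  · rfl
  · cases x <;> rfl

/-- The homomorphism `v ↦ (v, α v, β v)`. -/
def veHom {X : Type} (α β : (X → ℤ) →+ ℤ) : (X → ℤ) →+ (Co X → ℤ) where
  toFun v := ve v (α v) (β v)
  map_zero' := by
    funext x
    rcases x with x | x
    · rfl
    · cases x <;> simp [ve]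
  map_add' v w := by rw [map_add, map_add, ve_add]

theorem veHom_inj {X : Type} (α β : (X → ℤ) →+ ℤ) : Function.Injective (veHom α β) := by
  intro v w h
  exact (ve_inj h).1

/-- Evaluation. -/
def ev {Y : Type} (x : Y) : (Y → ℤ) →+ ℤ where
  toFun v := v x
  map_zero' := rfl
  map_add' _ _ := rfl

/-- The linear part of an equation. -/
def lin {X : Type} (q : Eqn X) (v : X → ℤ) : ℤ := q.a * v q.k + q.b * v q.l + q.c * v q.m

theorem holds_iff {X : Type} (q : Eqn X) (v : X → ℤ) :
    q.Holds v ↔ q.e * (v q.i * v q.j) + lin q v + q.d = 0 := by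
  unfold Eqn.Holds lin
  constructor <;> intro h <;> linarith

/-- Minus the linear part of an equation, as a homomorphism. -/
def linHom {X : Type} (q : Eqn X) : (X → ℤ) →+ ℤ where
  toFun v := - lin q v
  map_zero' := by simp [lin]
  map_add' v w := by
    simp only [lin, Pi.add_apply]
    ring

/-- `(v, s, t) ↦ (v, s, t + e v_j)`. -/
def shear {X : Type} (q : Eqn X) : (Co X → ℤ) →+ (Co X → ℤ) where
  toFun w := ve (fun x => w (Sum.inl x)) (w (Sum.inr false))
    (w (Sum.inr true) + q.e * w (Sum.inl q.j))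
  map_zero' := by
    funext x
    rcases x with x | x
    · rfl
    · cases x <;> simp [ve]
  map_add' v w := by
    rw [ve_add]
    congr 1
    simp only [Pi.add_apply]
    ring

theorem shear_inj {X : Type} (q : Eqn X) : Function.Injective (shear q) := by
  intro v w h
  obtain ⟨h1, h2, h3⟩ := ve_inj h
  rw [← ve_eta v, ← ve_eta w, h1, h2]
  congr 1
  have : v (Sum.inl q.j) = w (Sum.inl q.j) := congrFun h1 q.j
  rw [this] at h3
  linarith

/-- `y ↦ y e_x`. -/
def sing {X : Type} [DecidableEq X] (x : X) : (Unit → ℤ) →+ (Co X → ℤ) where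
  toFun y := ve (Pi.single x (y ())) 0 0
  map_zero' := by
    funext x
    rcases x with x | x
    · simp [ve]
    · cases x <;> simp [ve]
  map_add' v w := by
    rw [ve_add, ← Pi.single_add]
    simp

theorem sing_apply {X : Type} [DecidableEq X] (x : X) (y : Unit → ℤ) :
    sing x y = ve (Pi.single x (y ())) 0 0 := rfl

theorem veHom_apply {X : Type} (α β : (X → ℤ) →+ ℤ) (v : X → ℤ) :
    veHom α β v = ve v (α v) (β v) := rfl

theorem ev_apply {Y : Type} (x : Y) (v : Y → ℤ) : ev x v = v x := rfl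

theorem linHom_apply {X : Type} (q : Eqn X) (v : X → ℤ) : linHom q v = - lin q v := rfl

theorem sing_inj {X : Type} [DecidableEq X] (x : X) : Function.Injective (sing x) := by
  intro v w h
  obtain ⟨h1, h2, h3⟩ := ve_inj h
  funext u
  simpa using congrFun h1 x

section

variable {X : Type} [Fintype X] [DecidableEq X] (n m : X) (L : List (Eqn X))

/-- The rules of the system. -/
def ru : Ix X L.length → Rule (St L.length) (Co X)
  | .b0 => ⟨Unit, inferInstance, .base, .stage 0, sing n, sing n, 0, 0, sing_inj n, sing_inj n⟩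
  | .s0 x => ⟨X, inferInstance, .stage 0, .stage 0, veHom 0 0, veHom 0 0, 0,
      ve (if x = n then 0 else Pi.single x 1) 0 0, veHom_inj _ _, veHom_inj _ _⟩
  | .inM j => ⟨X, inferInstance, .stage j.castSucc, .mid j, veHom 0 0, veHom 0 0, 0, 0,
      veHom_inj _ _, veHom_inj _ _⟩
  | .loop j => ⟨Co X, inferInstance, .mid j, .mid j, AddMonoidHom.id _, shear L[j], 0,
      ve 0 1 0, fun _ _ h => h, shear_inj _⟩
  | .outM j => ⟨X, inferInstance, .mid j, .stage j.succ, veHom (ev L[j].i) (linHom L[j]),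
      veHom 0 0, ve 0 0 (-L[j].d), 0, veHom_inj _ _, veHom_inj _ _⟩
  | .sl x => ⟨X, inferInstance, .stage (Fin.last _), .stage (Fin.last _), veHom 0 0, veHom 0 0, 0,
      ve (if x = m then 0 else Pi.single x 1) 0 0, veHom_inj _ _, veHom_inj _ _⟩
  | .bl => ⟨Unit, inferInstance, .stage (Fin.last _), .base, sing m, sing n, 0, 0, sing_inj m,
      sing_inj n⟩

/-- The reachability. -/
def Co' (u v : St L.length × (Co X → ℤ)) : Prop := Relation.EqvGen (Step (toRules (ru n m L))) u v

variable {n m L}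

theorem c_trans {u v w : St L.length × (Co X → ℤ)} (h : Co' n m L u v) (h' : Co' n m L v w) :
    Co' n m L u w := Relation.EqvGen.trans _ _ _ h h'

theorem c_symm {u v : St L.length × (Co X → ℤ)} (h : Co' n m L u v) :
    Co' n m L v u := Relation.EqvGen.symm _ _ h

theorem c_refl (u : St L.length × (Co X → ℤ)) : Co' n m L u u := Relation.EqvGen.refl _

theorem c_step (i : Ix X L.length) (y : (ru n m L i).Y → ℤ) :
    Co' n m L ((ru n m L i).src, (ru n m L i).μ y + (ru n m L i).a)
      ((ru n m L i).tgt, (ru n m L i).ν y + (ru n m L i).b) :=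
  Relation.EqvGen.rel _ _ (step_mk _ i y)

theorem c_b0 (k : ℤ) : Co' n m L (.base, ve (Pi.single n k) 0 0)
    (.stage 0, ve (Pi.single n k) 0 0) := by
  have h : Co' n m L (.base, ve (Pi.single n k) 0 0 + 0) (.stage 0, ve (Pi.single n k) 0 0 + 0) :=
    c_step (n := n) (m := m) (L := L) Ix.b0 (fun _ => k)
  rwa [add_zero] at h

theorem c_bl (k : ℤ) : Co' n m L (.stage (Fin.last _), ve (Pi.single m k) 0 0)
    (.base, ve (Pi.single n k) 0 0) := by
  have h : Co' n m L (.stage (Fin.last _), ve (Pi.single m k) 0 0 + 0)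
    (.base, ve (Pi.single n k) 0 0 + 0) :=
    c_step (n := n) (m := m) (L := L) Ix.bl (fun _ => k)
  rwa [add_zero, add_zero] at h

theorem c_s0 (v : X → ℤ) (x : X) (hx : x ≠ n) : Co' n m L (.stage 0, ve v 0 0)
    (.stage 0, ve (v + Pi.single x 1) 0 0) := by
  have h : Co' n m L (.stage 0, ve v 0 0 + 0)
    (.stage 0, ve v 0 0 + ve (if x = n then 0 else Pi.single x 1) 0 0) :=
    c_step (n := n) (m := m) (L := L) (Ix.s0 x) v
  rwa [add_zero, if_neg hx, ve_add, add_zero] at h

theorem c_sl (v : X → ℤ) (x : X) (hx : x ≠ m) : Co' n m L (.stage (Fin.last _), ve v 0 0)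
    (.stage (Fin.last _), ve (v + Pi.single x 1) 0 0) := by
  have h : Co' n m L (.stage (Fin.last _), ve v 0 0 + 0)
    (.stage (Fin.last _), ve v 0 0 + ve (if x = m then 0 else Pi.single x 1) 0 0) :=
    c_step (n := n) (m := m) (L := L) (Ix.sl x) v
  rwa [add_zero, if_neg hx, ve_add, add_zero] at h

theorem c_inM (j : Fin L.length) (v : X → ℤ) : Co' n m L (.stage j.castSucc, ve v 0 0)
    (.mid j, ve v 0 0) := by
  have h : Co' n m L (.stage j.castSucc, ve v 0 0 + 0) (.mid j, ve v 0 0 + 0) :=
    c_step (n := n) (m := m) (L := L) (Ix.inM j) v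
  rwa [add_zero] at h

theorem c_outM (j : Fin L.length) (v : X → ℤ) :
    Co' n m L (.mid j, ve v (v L[j].i) (-(lin L[j] v) - L[j].d)) (.stage j.succ, ve v 0 0) := by
  have h : Co' n m L (.mid j, ve v (v L[j].i) (-(lin L[j] v)) + ve 0 0 (-L[j].d))
    (.stage j.succ, ve v 0 0 + 0) := c_step (n := n) (m := m) (L := L) (Ix.outM j) v
  rwa [add_zero, ve_add, add_zero, add_zero, ← sub_eq_add_neg] at h

theorem c_loop (j : Fin L.length) (v : X → ℤ) (s t : ℤ) :
    Co' n m L (.mid j, ve v s t) (.mid j, ve v (s + 1) (t + L[j].e * v L[j].j)) := by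
  have h := c_step (n := n) (m := m) (L := L) (Ix.loop j) (ve v s t)
  have e1 : (ru n m L (Ix.loop j)).μ (ve v s t) + (ru n m L (Ix.loop j)).a = ve v s t := by
    show ve v s t + 0 = _
    rw [add_zero]
  have e2 : (ru n m L (Ix.loop j)).ν (ve v s t) + (ru n m L (Ix.loop j)).b =
      ve v (s + 1) (t + L[j].e * v L[j].j) := by
    show ve _ _ _ + ve _ _ _ = _
    rw [ve_add]
    simp [ve]
  rw [e1, e2] at h
  exact h

/-! ### Completeness -/

theorem c_loops (j : Fin L.length) (v : X → ℤ) (s : ℤ) :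
    Co' n m L (.mid j, ve v 0 0) (.mid j, ve v s (L[j].e * (s * v L[j].j))) := by
  induction s using Int.induction_on with
  | zero => simpa using c_refl _
  | succ s ih =>
    refine c_trans ih ?_
    have h := c_loop (n := n) (m := m) j v s (L[j].e * (s * v L[j].j))
    have e : L[j].e * (s * v L[j].j) + L[j].e * v L[j].j = L[j].e * ((s + 1) * v L[j].j) := by
      ring
    rw [e] at h
    exact h
  | pred s ih =>
    refine c_trans ih (c_symm ?_)
    have h := c_loop (n := n) (m := m) j v (-s - 1) (L[j].e * ((-s - 1) * v L[j].j))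
    have e : L[j].e * ((-s - 1) * v L[j].j) + L[j].e * v L[j].j = L[j].e * (-s * v L[j].j) := by
      ring
    rw [e, sub_add_cancel] at h
    exact h

theorem c_gadget (j : Fin L.length) (v : X → ℤ) (h : L[j].Holds v) :
    Co' n m L (.stage j.castSucc, ve v 0 0) (.stage j.succ, ve v 0 0) := by
  refine c_trans (c_inM j v) (c_trans (c_loops j v (v L[j].i)) ?_)
  have h' := c_outM (n := n) (m := m) j v
  have e : L[j].e * (v L[j].i * v L[j].j) = -(lin L[j] v) - L[j].d := by
    rw [holds_iff] at h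
    linarith
  rw [e]
  exact h'

theorem c_stages (v : X → ℤ) (h : ∀ q ∈ L, q.Holds v) (j : Fin (L.length + 1)) :
    Co' n m L (.stage 0, ve v 0 0) (.stage j, ve v 0 0) := by
  induction j using Fin.induction with
  | zero => exact c_refl _
  | succ j ih => exact c_trans ih (c_gadget j v (h _ (List.getElem_mem _)))

theorem shift_all (p : St L.length) (x₀ : X)
    (hs : ∀ (v : X → ℤ) (x : X), x ≠ x₀ → Co' n m L (p, ve v 0 0) (p, ve (v + Pi.single x 1) 0 0))
    (v v' : X → ℤ) (h : v x₀ = v' x₀) : Co' n m L (p, ve v 0 0) (p, ve v' 0 0) := by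
  have h1 : ∀ (x : X), x ≠ x₀ → ∀ (c : ℤ) (v : X → ℤ),
      Co' n m L (p, ve v 0 0) (p, ve (v + Pi.single x c) 0 0) := by
    intro x hx c
    induction c using Int.induction_on with
    | zero =>
      intro v
      rw [Pi.single_zero, add_zero]
      exact c_refl _
    | succ s ih =>
      intro v
      have := c_trans (ih v) (hs _ x hx)
      rwa [add_assoc, ← Pi.single_add] at this
    | pred s ih =>
      intro v
      have h2 := hs (v + Pi.single x (-(s : ℤ) - 1)) x hx
      rw [add_assoc, ← Pi.single_add, sub_add_cancel] at h2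
      exact c_trans (ih v) (c_symm h2)
  have h2 : ∀ (s : Finset X) (c : X → ℤ), c x₀ = 0 → ∀ (v : X → ℤ),
      Co' n m L (p, ve v 0 0) (p, ve (v + ∑ x ∈ s, Pi.single x (c x)) 0 0) := by
    intro s c hc
    induction s using Finset.induction_on with
    | empty =>
      intro v
      rw [Finset.sum_empty, add_zero]
      exact c_refl _
    | insert a s ha ih =>
      intro v
      rw [Finset.sum_insert ha]
      by_cases hx : a = x₀
      · subst hx
        rw [hc, Pi.single_zero, zero_add]
        exact ih v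
      · have := c_trans (h1 a hx (c a) v) (ih _)
        rwa [add_assoc] at this
  have h3 := h2 Finset.univ (v' - v) (by simp [h]) v
  rw [Finset.univ_sum_single] at h3
  rwa [add_sub_cancel] at h3

theorem complete (v : X → ℤ) (h : ∀ q ∈ L, q.Holds v) :
    Co' n m L (.base, ve (Pi.single n (v n)) 0 0) (.base, ve (Pi.single n (v m)) 0 0) := by
  refine c_trans (c_b0 _) (c_trans (shift_all _ n c_s0 _ v (by simp)) (c_trans
    (c_stages v h (Fin.last _)) (c_trans (shift_all _ m c_sl _ (Pi.single m (v m)) (by simp))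
      (c_bl _))))

/-! ### Soundness -/

/-- The extension of `R` to the integers. -/
def E (R : ℕ → ℕ → Prop) (k k' : ℤ) : Prop := k = k' ∨ ∃ a b : ℕ, k = a ∧ k' = b ∧ R a b

theorem E_trans {R : ℕ → ℕ → Prop} (hR : Equivalence R) {k k' k'' : ℤ} (h : E R k k')
    (h' : E R k' k'') : E R k k'' := by
  rcases h with rfl | ⟨a, b, rfl, rfl, h⟩
  · exact h'
  · rcases h' with rfl | ⟨c, d, hc, rfl, h'⟩
    · exact Or.inr ⟨a, b, rfl, rfl, h⟩
    · have : b = c := by exact_mod_cast hc
      subst this
      exact Or.inr ⟨a, d, rfl, rfl, hR.trans h h'⟩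

theorem E_symm {R : ℕ → ℕ → Prop} (hR : Equivalence R) {k k' : ℤ} (h : E R k k') :
    E R k' k := by
  rcases h with rfl | ⟨a, b, rfl, rfl, h⟩
  · exact Or.inl rfl
  · exact Or.inr ⟨b, a, rfl, rfl, hR.symm h⟩

theorem E_congr {R : ℕ → ℕ → Prop} (hR : Equivalence R) {k k' c : ℤ} (h : E R k k') :
    E R c k ↔ E R c k' :=
  ⟨fun g => E_trans hR g h, fun g => E_trans hR g (E_symm hR h)⟩

variable (n m L) in
/-- The invariant. -/
def Inv (R : ℕ → ℕ → Prop) (c : ℤ) : St L.length × (Co X → ℤ) → Prop
  | (.base, w) => E R c (w (Sum.inl n))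
  | (.stage j, w) =>
      ((∀ i : Fin L.length, i.castSucc < j → L[i].Holds (fun x => w (Sum.inl x))) ∧
        E R c (w (Sum.inl n))) ∨
      ((∀ i : Fin L.length, j ≤ i.castSucc → L[i].Holds (fun x => w (Sum.inl x))) ∧
        E R c (w (Sum.inl m)))
  | (.mid j, w) =>
      ((∀ i : Fin L.length, i < j → L[i].Holds (fun x => w (Sum.inl x))) ∧
        w (Sum.inr true) - L[j].e * (w (Sum.inr false) * w (Sum.inl L[j].j)) = 0 ∧
        E R c (w (Sum.inl n))) ∨
      ((∀ i : Fin L.length, j < i → L[i].Holds (fun x => w (Sum.inl x))) ∧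
        w (Sum.inr true) - L[j].e * (w (Sum.inr false) * w (Sum.inl L[j].j)) =
          - (lin L[j] (fun x => w (Sum.inl x))) - L[j].d -
            L[j].e * (w (Sum.inl L[j].i) * w (Sum.inl L[j].j)) ∧
        E R c (w (Sum.inl m)))

set_option maxHeartbeats 4000000 in
theorem inv_step (R : ℕ → ℕ → Prop) (hR : Equivalence R) (hL : Defines R n m L) (c : ℤ)
    {u v : St L.length × (Co X → ℤ)} (h : Step (toRules (ru n m L)) u v) :
    Inv n m L R c u ↔ Inv n m L R c v := by
  have key : ∀ v : X → ℤ, (∀ i : Fin L.length, L[i].Holds v) → (E R c (v n) ↔ E R c (v m)) := by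
    intro v hv
    apply E_congr hR
    right
    exact (hL (v n) (v m)).1 ⟨v, rfl, rfl, fun q hq => by
      obtain ⟨i, hi, rfl⟩ := List.getElem_of_mem hq
      exact hv ⟨i, hi⟩⟩
  have S0 : ∀ w : Co X → ℤ, Inv n m L R c (.stage 0, w) ↔ E R c (w (Sum.inl n)) := by
    intro w
    constructor
    · rintro (⟨_, h⟩ | ⟨h, h'⟩)
      · exact h
      · exact (key (fun x => w (Sum.inl x)) (fun i => h i (Fin.zero_le _))).2 h'
    · intro h
      exact Or.inl ⟨fun i hi => absurd hi (Fin.not_lt_zero _), h⟩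
  have SL : ∀ w : Co X → ℤ, Inv n m L R c (.stage (Fin.last _), w) ↔ E R c (w (Sum.inl m)) := by
    intro w
    constructor
    · rintro (⟨h, h'⟩ | ⟨_, h⟩)
      · exact (key (fun x => w (Sum.inl x)) (fun i => h i (Fin.castSucc_lt_last _))).1 h'
      · exact h
    · intro h
      exact Or.inr ⟨fun i hi => absurd (Fin.castSucc_lt_last i) (not_lt.2 hi), h⟩
  obtain ⟨i, y, rfl, rfl⟩ := step_inv _ h
  cases i with
  | b0 => exact (S0 _).symm
  | bl =>
    refine Iff.trans (SL _) ?_
    show E R c ((ve (Pi.single m (y ())) 0 0 + 0 : Co X → ℤ) (Sum.inl m)) ↔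
      E R c ((ve (Pi.single n (y ())) 0 0 + 0 : Co X → ℤ) (Sum.inl n))
    simp [ve]
  | s0 x =>
    refine Iff.trans (S0 _) (Iff.trans ?_ (S0 _).symm)
    have h1 : ∀ y : X → ℤ, E R c ((ve y 0 0 + 0 : Co X → ℤ) (Sum.inl n)) ↔
      E R c ((ve y 0 0 + ve (if x = n then 0 else Pi.single x 1) 0 0 : Co X → ℤ) (Sum.inl n)) := by
      intro y
      split_ifs with hx
      · simp [ve]
      · simp [ve, Ne.symm hx]
    exact h1 y
  | sl x =>
    refine Iff.trans (SL _) (Iff.trans ?_ (SL _).symm)
    have h1 : ∀ y : X → ℤ, E R c ((ve y 0 0 + 0 : Co X → ℤ) (Sum.inl m)) ↔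
      E R c ((ve y 0 0 + ve (if x = m then 0 else Pi.single x 1) 0 0 : Co X → ℤ) (Sum.inl m)) := by
      intro y
      split_ifs with hx
      · simp [ve]
      · simp [ve, Ne.symm hx]
    exact h1 y
  | inM j =>
    have h1 : ∀ y : X → ℤ, Inv n m L R c (.stage j.castSucc, ve y 0 0 + 0) ↔
        Inv n m L R c (.mid j, ve y 0 0 + 0) := by
      intro y
      rw [add_zero]
      show ((∀ i : Fin L.length, i.castSucc < j.castSucc → L[i].Holds y) ∧ E R c (y n)) ∨
        ((∀ i : Fin L.length, j.castSucc ≤ i.castSucc → L[i].Holds y) ∧ E R c (y m)) ↔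
        ((∀ i : Fin L.length, i < j → L[i].Holds y) ∧ (0 : ℤ) - L[j].e * (0 * y L[j].j) = 0 ∧
          E R c (y n)) ∨
        ((∀ i : Fin L.length, j < i → L[i].Holds y) ∧ (0 : ℤ) - L[j].e * (0 * y L[j].j) =
          - (lin L[j] y) - L[j].d - L[j].e * (y L[j].i * y L[j].j) ∧ E R c (y m))
      have e2 : (∀ i : Fin L.length, j.castSucc ≤ i.castSucc → L[i].Holds y) ↔
        (∀ i : Fin L.length, j < i → L[i].Holds y) ∧ L[j].Holds y := by
        constructor
        · intro h
          exact ⟨fun i hi => h i (by simpa using hi.le), h j le_rfl⟩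
        · rintro ⟨h, h'⟩ i hi
          rcases eq_or_lt_of_le (show j ≤ i by simpa using hi) with rfl | hi'
          · exact h'
          · exact h i hi'
      have e3 : (0 : ℤ) - L[j].e * (0 * y L[j].j) = - (lin L[j] y) - L[j].d -
          L[j].e * (y L[j].i * y L[j].j) ↔ L[j].Holds y := by
        rw [holds_iff]
        constructor <;> intro h <;> linarith
      rw [e2, e3]
      simp only [Fin.castSucc_lt_castSucc_iff, zero_mul, mul_zero, sub_zero, true_and, and_assoc]
    exact h1 y
  | loop j =>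
    have h1 : ∀ y : Co X → ℤ, Inv n m L R c (.mid j, y + 0) ↔
        Inv n m L R c (.mid j, shear L[j] y + ve 0 1 0) := by
      intro y
      rw [add_zero, ← ve_eta y]
      generalize (fun x => y (Sum.inl x)) = v
      generalize y (Sum.inr false) = s
      generalize y (Sum.inr true) = t
      have e1 : shear L[j] (ve v s t) + ve 0 1 0 = ve v (s + 1) (t + L[j].e * v L[j].j) := by
        show ve _ _ _ + ve _ _ _ = _
        rw [ve_add]
        simp [ve]
      rw [e1]
      have e4 : t + L[j].e * v L[j].j - L[j].e * ((s + 1) * v L[j].j) =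
        t - L[j].e * (s * v L[j].j) := by ring
      show ((∀ i : Fin L.length, i < j → L[i].Holds v) ∧ t - L[j].e * (s * v L[j].j) = 0 ∧
          E R c (v n)) ∨
        ((∀ i : Fin L.length, j < i → L[i].Holds v) ∧ t - L[j].e * (s * v L[j].j) =
          - (lin L[j] v) - L[j].d - L[j].e * (v L[j].i * v L[j].j) ∧ E R c (v m)) ↔
        ((∀ i : Fin L.length, i < j → L[i].Holds v) ∧
          t + L[j].e * v L[j].j - L[j].e * ((s + 1) * v L[j].j) = 0 ∧ E R c (v n)) ∨
        ((∀ i : Fin L.length, j < i → L[i].Holds v) ∧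
          t + L[j].e * v L[j].j - L[j].e * ((s + 1) * v L[j].j) =
          - (lin L[j] v) - L[j].d - L[j].e * (v L[j].i * v L[j].j) ∧ E R c (v m))
      rw [e4]
    exact h1 y
  | outM j =>
    have h1 : ∀ y : X → ℤ,
        Inv n m L R c (.mid j, ve y (y L[j].i) (- lin L[j] y) + ve 0 0 (-L[j].d)) ↔
        Inv n m L R c (.stage j.succ, ve y 0 0 + 0) := by
      intro y
      rw [add_zero, ve_add, add_zero, add_zero, ← sub_eq_add_neg]
      show ((∀ i : Fin L.length, i < j → L[i].Holds y) ∧
          -(lin L[j] y) - L[j].d - L[j].e * (y L[j].i * y L[j].j) = 0 ∧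
          E R c (y n)) ∨
        ((∀ i : Fin L.length, j < i → L[i].Holds y) ∧
          -(lin L[j] y) - L[j].d - L[j].e * (y L[j].i * y L[j].j) =
          - (lin L[j] y) - L[j].d - L[j].e * (y L[j].i * y L[j].j) ∧ E R c (y m)) ↔
        ((∀ i : Fin L.length, i.castSucc < j.succ → L[i].Holds y) ∧ E R c (y n)) ∨
        ((∀ i : Fin L.length, j.succ ≤ i.castSucc → L[i].Holds y) ∧ E R c (y m))
      have e2 : (∀ i : Fin L.length, i.castSucc < j.succ → L[i].Holds y) ↔
        (∀ i : Fin L.length, i < j → L[i].Holds y) ∧ L[j].Holds y := by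
        constructor
        · intro h
          exact ⟨fun i hi => h i (by rw [Fin.castSucc_lt_succ_iff]; exact hi.le),
            h j (by rw [Fin.castSucc_lt_succ_iff])⟩
        · rintro ⟨h, h'⟩ i hi
          rw [Fin.castSucc_lt_succ_iff] at hi
          rcases eq_or_lt_of_le hi with rfl | hi'
          · exact h'
          · exact h i hi'
      have e3 : -(lin L[j] y) - L[j].d - L[j].e * (y L[j].i * y L[j].j) = 0 ↔ L[j].Holds y := by
        rw [holds_iff]
        constructor <;> intro h <;> linarith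
      rw [e2, e3]
      simp only [Fin.succ_le_castSucc_iff, true_and, and_assoc]
    exact h1 y

theorem inv_co (R : ℕ → ℕ → Prop) (hR : Equivalence R) (hL : Defines R n m L) (c : ℤ)
    {u v : St L.length × (Co X → ℤ)} (h : Co' n m L u v) :
    Inv n m L R c u ↔ Inv n m L R c v := by
  induction h with
  | rel u v h => exact inv_step R hR hL c h
  | refl u => exact Iff.rfl
  | symm u v _ ih => exact ih.symm
  | trans u v w _ _ ih ih' => exact ih.trans ih'

theorem sound (R : ℕ → ℕ → Prop) (hR : Equivalence R) (hL : Defines R n m L) (k k' : ℤ)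
    (h : Co' n m L (.base, ve (Pi.single n k) 0 0) (.base, ve (Pi.single n k') 0 0)) :
    E R k k' := by
  have h2 := inv_co R hR hL k h
  have h3 : E R k ((Pi.single n k : X → ℤ) n) := Or.inl (by rw [Pi.single_eq_same])
  have h4 : E R k ((Pi.single n k' : X → ℤ) n) := h2.1 h3
  rw [Pi.single_eq_same] at h4
  exact h4

end

theorem t : StmGraph := by
  intro R hR X _ n m L hnm hL
  classical
  refine ⟨St L.length, Ix X L.length, Co X, inferInstance, inferInstance, inferInstance,
    inferInstance, toRules (ru n m L), .base, Sum.inl n, fun k k' => ?_⟩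
  have es : ∀ k : ℤ, (Pi.single (Sum.inl n) k : Co X → ℤ) = ve (Pi.single n k) 0 0 := by
    intro k
    funext x
    rcases x with x | x
    · by_cases hx : x = n
      · subst hx
        simp [ve]
      · simp [ve, hx]
    · cases x <;> simp [ve]
  rw [es, es]
  constructor
  · intro h
    exact sound R hR hL k k' h
  · rintro (rfl | ⟨a, b, rfl, rfl, h⟩)
    · exact Relation.EqvGen.refl _
    · obtain ⟨v, hn, hm, hv⟩ := (hL a b).2 ⟨a, b, rfl, rfl, h⟩
      have := complete (n := n) (m := m) v hv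
      rw [hn, hm] at this
      exact this

end Pool.Agent.X235.ISO.Graph

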