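import Mathlib
import Pool.Agent.Y817.ISO.Stm
import Pool.Agent.TH103.VD.Syll

/-!
# ISO, part INV: the isomorphism type of the amalgam determines `g`
-/

set_option autoImplicit false

namespace Pool.Agent.X235.ISO.Inv

open Pool.Agent.Y817.ISO Pool.Agent.TH103.VD Monoid

/-! ### Counting homomorphisms of `B_g` -/

/-- Homomorphisms of `B_g` are the pairs `(τ, ζ)` with `[τ, ζ ^ g] = 1`. -/
noncomputable def homEquiv (g : ℤ) (S : Type) [Group S] :
    (Bg g →* S) ≃ {p : S × S // p.1 * p.2 ^ g = p.2 ^ g * p.1} where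
  toFun F := ⟨(F HNNExtension.t, F (HNNExtension.of (Multiplicative.ofAdd 1))), by
    have h := HNNExtension.t_mul_of (φ := MulEquiv.refl
      (Subgroup.zpowers (Multiplicative.ofAdd g))) ⟨_, Subgroup.mem_zpowers _⟩
    have h2 := congrArg F h
    rw [map_mul, map_mul] at h2
    have e : (Multiplicative.ofAdd g : Multiplicative ℤ) = (Multiplicative.ofAdd 1) ^ g := by
      rw [← ofAdd_zsmul, smul_eq_mul, mul_one]
    show F HNNExtension.t * (F (HNNExtension.of (Multiplicative.ofAdd 1))) ^ g =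
      (F (HNNExtension.of (Multiplicative.ofAdd 1))) ^ g * F HNNExtension.t
    rw [← map_zpow, ← map_zpow, ← e]
    exact h2⟩
  invFun p := HNNExtension.lift (zpowersHom S p.1.2) p.1.1 (by
    rintro ⟨_, n, rfl⟩
    show p.1.1 * (zpowersHom S p.1.2) (Multiplicative.ofAdd g ^ n) =
      (zpowersHom S p.1.2) (Multiplicative.ofAdd g ^ n) * p.1.1
    rw [map_zpow, zpowersHom_apply, toAdd_ofAdd]
    exact (Commute.zpow_right (show Commute p.1.1 (p.1.2 ^ g) from p.2) n).eq)
  left_inv F := by
    apply HNNExtension.hom_ext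
    · ext
      simp
    · simp
  right_inv p := by
    apply Subtype.ext
    apply Prod.ext
    · simp
    · simp

theorem bg_inj (a b : ℕ) (hab : a < b) (h : Nonempty (Bg (2 ^ (a + 1)) ≃* Bg (2 ^ (b + 1)))) :
    False := by
  obtain ⟨e⟩ := h
  let N : ℕ := 2 ^ (b + 1)
  have : NeZero N := ⟨by positivity⟩
  let S := Equiv.Perm (ZMod N)
  have hab' : a + 1 < b + 1 := by omega
  have hlt : 2 ^ (a + 1) < N := Nat.pow_lt_pow_right (by norm_num) hab'
  have h2 : 2 ≤ 2 ^ (a + 1) := by
    calc 2 = 2 ^ 1 := by norm_num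
      _ ≤ 2 ^ (a + 1) := Nat.pow_le_pow_right (by norm_num) (by omega)
  let A : ℤ → Set (S × S) := fun g => {p : S × S | p.1 * p.2 ^ g = p.2 ^ g * p.1}
  have hcard : (A (2 ^ (a + 1))).ncard = (A (2 ^ (b + 1))).ncard := by
    have e1 : Nat.card (A (2 ^ (a + 1))) = Nat.card (Bg (2 ^ (a + 1)) →* S) :=
      (Nat.card_congr (homEquiv (2 ^ (a + 1)) S)).symm
    have e2 : Nat.card (A (2 ^ (b + 1))) = Nat.card (Bg (2 ^ (b + 1)) →* S) :=
      (Nat.card_congr (homEquiv (2 ^ (b + 1)) S)).symm
    have e3 : Nat.card (Bg (2 ^ (a + 1)) →* S) = Nat.card (Bg (2 ^ (b + 1)) →* S) := by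
      refine Nat.card_congr ⟨fun F => F.comp e.symm.toMonoidHom, fun F => F.comp e.toMonoidHom,
        ?_, ?_⟩
      · intro F
        refine MonoidHom.ext fun x => ?_
        show F (e.symm (e x)) = F x
        rw [MulEquiv.symm_apply_apply]
      · intro F
        refine MonoidHom.ext fun x => ?_
        show F (e (e.symm x)) = F x
        rw [MulEquiv.apply_symm_apply]
    rw [← Nat.card_coe_set_eq, ← Nat.card_coe_set_eq, e1, e2, e3]
  have hsub : A (2 ^ (a + 1)) ⊆ A (2 ^ (b + 1)) := by
    rintro ⟨τ, ζ⟩ h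
    have h' : Commute τ (ζ ^ ((2 : ℤ) ^ (a + 1))) := h
    show Commute τ (ζ ^ ((2 : ℤ) ^ (b + 1)))
    have : (2 : ℤ) ^ (b + 1) = 2 ^ (a + 1) * 2 ^ (b - a) := by
      rw [← pow_add]
      congr 1
      omega
    rw [this, zpow_mul]
    exact Commute.zpow_right h' _
  have hζ : ∀ (n : ℕ) (x : ZMod N), ((Equiv.addRight (1 : ZMod N) : S) ^ n) x = x + n := by
    intro n
    induction n with
    | zero => intro x; simp
    | succ n ih =>
      intro x
      rw [pow_succ, Equiv.Perm.mul_apply, ih]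
      simp only [Equiv.coe_addRight]
      push_cast
      ring
  have hss : A (2 ^ (a + 1)) ⊂ A (2 ^ (b + 1)) := by
    refine ⟨hsub, fun hle => ?_⟩
    have hmem : ((Equiv.swap 0 1 : S), (Equiv.addRight (1 : ZMod N) : S)) ∈ A (2 ^ (b + 1)) := by
      show _ * (Equiv.addRight (1 : ZMod N) : S) ^ ((2 : ℤ) ^ (b + 1)) =
        (Equiv.addRight (1 : ZMod N) : S) ^ ((2 : ℤ) ^ (b + 1)) * _
      have : (Equiv.addRight (1 : ZMod N) : S) ^ ((2 : ℤ) ^ (b + 1)) = 1 := by
        have e4 : ((2 : ℤ) ^ (b + 1)) = ((N : ℕ) : ℤ) := by simp [N]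
        rw [e4, zpow_natCast]
        ext x
        rw [hζ]
        simp
      rw [this, mul_one, one_mul]
    have h3 := hle hmem
    have h4 : (Equiv.swap 0 1 : S) * (Equiv.addRight (1 : ZMod N) : S) ^ (2 ^ (a + 1) : ℕ) =
      (Equiv.addRight (1 : ZMod N) : S) ^ (2 ^ (a + 1) : ℕ) * (Equiv.swap 0 1 : S) := by
      have := h3
      change _ * (Equiv.addRight (1 : ZMod N) : S) ^ ((2 : ℤ) ^ (a + 1)) =
        (Equiv.addRight (1 : ZMod N) : S) ^ ((2 : ℤ) ^ (a + 1)) * _ at this
      have e5 : ((2 : ℤ) ^ (a + 1)) = ((2 ^ (a + 1) : ℕ) : ℤ) := by simp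
      rw [e5, zpow_natCast] at this
      exact this
    have h5 : (Equiv.swap (0 : ZMod N) 1) (((Equiv.addRight (1 : ZMod N) : S) ^ (2 ^ (a + 1))) 0) =
        ((Equiv.addRight (1 : ZMod N) : S) ^ (2 ^ (a + 1))) (Equiv.swap (0 : ZMod N) 1 0) :=
      congrArg (fun f : Equiv.Perm (ZMod N) => f 0) h4
    rw [hζ, hζ, Equiv.swap_apply_left, zero_add] at h5
    have hne0 : ((2 ^ (a + 1) : ℕ) : ZMod N) ≠ 0 := by
      rw [Ne, ZMod.natCast_eq_zero_iff]
      intro hdvd
      exact absurd (Nat.le_of_dvd (by positivity) hdvd) (not_le.2 hlt)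
    have hne1 : ((2 ^ (a + 1) : ℕ) : ZMod N) ≠ 1 := by
      intro h6
      have h7 : ((2 ^ (a + 1) : ℕ) : ZMod N) = ((1 : ℕ) : ZMod N) := by rw [h6, Nat.cast_one]
      rw [ZMod.natCast_eq_natCast_iff'] at h7
      rw [Nat.mod_eq_of_lt hlt, Nat.mod_eq_of_lt (by omega)] at h7
      omega
    rw [Equiv.swap_apply_of_ne_of_ne hne0 hne1] at h5
    have h8 : (1 : ZMod N) = 0 := by
      have : ((2 ^ (a + 1) : ℕ) : ZMod N) + 0 = ((2 ^ (a + 1) : ℕ) : ZMod N) + 1 := by
        rw [add_zero]
        rw [add_comm ((2 ^ (a + 1) : ℕ) : ZMod N) 1]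
        exact h5
      exact (add_left_cancel this).symm
    have h9 : ((1 : ℕ) : ZMod N) = 0 := by rw [Nat.cast_one]; exact h8
    rw [ZMod.natCast_eq_zero_iff] at h9
    have := Nat.le_of_dvd one_pos h9
    omega
  have hfin : (A (2 ^ (b + 1))).Finite := Set.toFinite _
  exact absurd hcard (Set.ncard_lt_ncard hss hfin).ne

/-! ### Torsion-free groups times `C₅` -/

theorem tf_prod {E E' C : Type} [Group E] [Group E'] [Group C] [Finite C] (hE : TF E)
    (hE' : TF E') (h : Nonempty (E × C ≃* E' × C)) : Nonempty (E ≃* E') := by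
  obtain ⟨Θ⟩ := h
  have tors : ∀ c : C, IsOfFinOrder c := fun c => isOfFinOrder_of_finite c
  have k1 : ∀ c : C, (Θ (1, c)).1 = 1 := by
    intro c
    apply hE'
    have h1 : IsOfFinOrder ((MonoidHom.fst E' C).comp (Θ.toMonoidHom.comp (MonoidHom.inr E C)) c) :=
      MonoidHom.isOfFinOrder _ (tors c)
    exact h1
  have k2 : ∀ c : C, (Θ.symm (1, c)).1 = 1 := by
    intro c
    apply hE
    have h1 : IsOfFinOrder
        ((MonoidHom.fst E C).comp (Θ.symm.toMonoidHom.comp (MonoidHom.inr E' C)) c) :=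
      MonoidHom.isOfFinOrder _ (tors c)
    exact h1
  refine ⟨MonoidHom.toMulEquiv
    ((MonoidHom.fst E' C).comp (Θ.toMonoidHom.comp (MonoidHom.inl E C)))
    ((MonoidHom.fst E C).comp (Θ.symm.toMonoidHom.comp (MonoidHom.inl E' C))) ?_ ?_⟩
  · ext e
    show (Θ.symm ((Θ (e, 1)).1, 1)).1 = e
    have h1 : (((Θ (e, 1)).1, 1) : E' × C) = Θ (e, 1) * (1, (Θ (e, 1)).2)⁻¹ := by
      ext <;> simp
    rw [h1, map_mul, MulEquiv.symm_apply_apply, map_inv, Prod.fst_mul, Prod.fst_inv, k2, inv_one,
      mul_one]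
  · ext e
    show (Θ ((Θ.symm (e, 1)).1, 1)).1 = e
    have h1 : (((Θ.symm (e, 1)).1, 1) : E × C) = Θ.symm (e, 1) * (1, (Θ.symm (e, 1)).2)⁻¹ := by
      ext <;> simp
    rw [h1, map_mul, MulEquiv.apply_symm_apply, map_inv, Prod.fst_mul, Prod.fst_inv, k1, inv_one,
      mul_one]

/-! ### Torsion and centralizers in amalgams -/

section

variable {E : Type} [Group E] {G : Bool → Type} [∀ b, Group (G b)] {φ : ∀ b, E →* G b}

/-- Inverse of a list of syllables. -/
def linv (L : List (Σ b, G b)) : List (Σ b, G b) :=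
  (L.map fun s => (⟨s.1, s.2⁻¹⟩ : Σ b, G b)).reverse

theorem pr_linv (L : List (Σ b, G b)) : pr φ (linv L) = (pr φ L)⁻¹ := by
  induction L with
  | nil => simp [linv, pr]
  | cons s L ih =>
    have : linv (s :: L) = linv L ++ [⟨s.1, s.2⁻¹⟩] := by simp [linv]
    rw [this, pr_append, ih, pr_cons, pr_cons, pr_nil, mul_one, mul_inv_rev]
    congr 1

theorem mem_linv {L : List (Σ b, G b)} {s : Σ b, G b} (h : s ∈ linv L) :
    ∃ t ∈ L, s = ⟨t.1, t.2⁻¹⟩ := by
  rw [linv, List.mem_reverse, List.mem_map] at h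
  obtain ⟨t, ht, rfl⟩ := h
  exact ⟨t, ht, rfl⟩

theorem red_linv {L : List (Σ b, G b)} (h : Red φ L) : Red φ (linv L) := by
  constructor
  · intro s hs
    obtain ⟨t, ht, rfl⟩ := mem_linv hs
    intro h2
    apply h.1 t ht
    have := Subgroup.inv_mem _ h2
    simpa using this
  · rw [linv, List.isChain_reverse, List.isChain_map]
    exact h.2.imp (fun a b hab => hab.symm)

theorem head_linv (L : List (Σ b, G b)) : (linv L).head? = L.getLast?.map
    fun s => (⟨s.1, s.2⁻¹⟩ : Σ b, G b) := by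
  rw [linv, List.head?_reverse, List.getLast?_map]

theorem last_linv (L : List (Σ b, G b)) : (linv L).getLast? = L.head?.map
    fun s => (⟨s.1, s.2⁻¹⟩ : Σ b, G b) := by
  rw [linv, List.getLast?_reverse, List.head?_map]

theorem comm_red (hφ : ∀ b, Function.Injective (φ b)) (L : List (Σ b, G b)) (hL : Red φ L)
    (hne : L ≠ []) (h1 : ∀ s ∈ L.head?, s.1 = false) (h2 : ∀ s ∈ L.getLast?, s.1 = false)
    (k : G true) (hk : k ∉ (φ true).range)
    (hc : Commute (pr φ L) (PushoutI.of (φ := φ) true k)) : False := by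
  have hk' : k⁻¹ ∉ (φ true).range := fun h => hk (by simpa using Subgroup.inv_mem _ h)
  have hne' : linv L ≠ [] := by
    intro h
    apply hne
    simpa [linv] using h
  have hW : Red φ ((⟨true, k⟩ : Σ b, G b) :: (L ++ (⟨true, k⁻¹⟩ : Σ b, G b) :: linv L)) := by
    constructor
    · intro s hs
      rw [List.mem_cons, List.mem_append, List.mem_cons] at hs
      rcases hs with rfl | hs | rfl | hs
      · exact hk
      · exact hL.1 s hs
      · exact hk'
      · exact (red_linv hL).1 s hs
    · rw [List.isChain_cons]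
      refine ⟨?_, ?_⟩
      · intro y hy
        rw [List.head?_append_of_ne_nil _ hne] at hy
        rw [h1 y hy]
        simp
      · rw [List.isChain_append]
        refine ⟨hL.2, ?_, ?_⟩
        · rw [List.isChain_cons]
          refine ⟨?_, (red_linv hL).2⟩
          intro y hy
          rw [head_linv] at hy
          rw [Option.mem_def, Option.map_eq_some_iff] at hy
          obtain ⟨s, hs, rfl⟩ := hy
          have := h2 s hs
          show true ≠ s.1
          rw [this]
          simp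
        · intro x hx y hy
          rw [List.head?_cons, Option.mem_def, Option.some.injEq] at hy
          subst hy
          rw [h2 x hx]
          simp
  refine hW.ne_one hφ (by simp) ?_
  rw [pr_cons, pr_append, pr_cons, pr_linv]
  show PushoutI.of true k * (pr φ L * (PushoutI.of true k⁻¹ * (pr φ L)⁻¹)) = 1
  rw [map_inv, ← mul_assoc, ← hc.eq]
  group

theorem mem_of_comm (hφ : ∀ b, Function.Injective (φ b)) (k : G true) (hk : k ∉ (φ true).range)
    (hkc : ∀ g : G true, Commute g k) (z : PushoutI φ)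
    (hc : Commute z (PushoutI.of (φ := φ) true k)) :
    z ∈ (PushoutI.of (φ := φ) true).range := by
  classical
  have hex : ∃ n, ∃ (g g' : G true) (L : List (Σ b, G b)), L.length = n ∧
      pr φ L = PushoutI.of (φ := φ) true g * z * PushoutI.of (φ := φ) true g' := by
    obtain ⟨L, hL⟩ := exists_pr z
    exact ⟨L.length, 1, 1, L, rfl, by simp [hL]⟩
  obtain ⟨g, g', L, hn, hL⟩ := Nat.find_spec hex
  have hmin : ∀ (g g' : G true) (L' : List (Σ b, G b)),
      pr φ L' = PushoutI.of (φ := φ) true g * z * PushoutI.of (φ := φ) true g' →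
      L.length ≤ L'.length := by
    intro g g' L' h
    rw [hn]
    exact Nat.find_min' hex ⟨g, g', L', rfl, h⟩
  have hz : z = PushoutI.of (φ := φ) true g⁻¹ * pr φ L * PushoutI.of (φ := φ) true g'⁻¹ := by
    rw [hL, map_inv, map_inv]
    group
  by_contra hnot
  have hnot' : pr φ L ∉ (PushoutI.of (φ := φ) true).range := by
    intro h
    apply hnot
    rw [hz]
    exact Subgroup.mul_mem _ (Subgroup.mul_mem _ ⟨_, rfl⟩ h) ⟨_, rfl⟩
  have hne : L ≠ [] := by
    rintro rfl
    exact hnot' (Subgroup.one_mem _)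
  have hbase : ∀ e, PushoutI.base φ e ∈ (PushoutI.of (φ := φ) true).range :=
    fun e => ⟨φ true e, PushoutI.of_apply_eq_base φ true e⟩
  have hred : Red φ L := by
    by_cases h2 : 2 ≤ L.length
    · exact red_of_min L h2 (fun L' h => hmin g g' L' (by rw [h, hL]))
    · match L, hne, h2 with
      | [s], _, _ =>
        refine ⟨?_, List.IsChain.singleton _⟩
        intro s' hs'
        rw [List.mem_singleton] at hs'
        subst hs'
        rintro ⟨e, he⟩
        apply hnot'
        rw [pr_cons, pr_nil, mul_one, ← he, PushoutI.of_apply_eq_base]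
        exact hbase e
      | (s :: t :: M), _, h2 => simp at h2
  have hcL : Commute (pr φ L) (PushoutI.of (φ := φ) true k) := by
    rw [hL]
    have h1 : ∀ g : G true, Commute (PushoutI.of (φ := φ) true g)
      (PushoutI.of (φ := φ) true k) := fun g => (hkc g).map _
    exact ((h1 g).mul_left hc).mul_left (h1 g')
  refine comm_red hφ L hred hne ?_ ?_ k hk hcL
  · intro s hs
    by_contra hs'
    obtain ⟨b, s⟩ := s
    have hb : b = true := by simpa using hs'
    subst hb
    cases L with
    | nil => exact hne rfl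
    | cons t M =>
      rw [List.head?_cons, Option.mem_def, Option.some.injEq] at hs
      subst hs
      have := hmin (s⁻¹ * g) g' M (by
        have h3 : pr φ M = (PushoutI.of (φ := φ) true s)⁻¹ * pr φ ((⟨true, s⟩ : Σ b, G b) :: M) := by
          rw [pr_cons]
          group
        rw [h3, hL, map_mul, map_inv]
        group)
      simp at this
  · intro s hs
    by_contra hs'
    obtain ⟨b, s⟩ := s
    have hb : b = true := by simpa using hs'
    subst hb
    rcases List.eq_nil_or_concat L with h | ⟨M, t, h⟩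
    · exact hne h
    · subst h
      rw [List.concat_eq_append, List.getLast?_append, List.getLast?_singleton] at hs
      simp only [Option.some_or, Option.mem_def, Option.some.injEq] at hs
      subst hs
      have := hmin g (g' * s⁻¹) M (by
        have h3 : pr φ M = pr φ (M.concat (⟨true, s⟩ : Σ b, G b)) *
            (PushoutI.of (φ := φ) true s)⁻¹ := by
          rw [List.concat_eq_append, pr_append, pr_cons, pr_nil, mul_one]
          group
        rw [h3, hL, map_mul, map_inv]
        group)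
      simp at this

theorem torsion_conj (hφ : ∀ b, Function.Injective (φ b)) (n : ℕ) (hn : n ≠ 0)
    (h0 : ∀ x : G false, x ^ n = 1 → x = 1) (z : PushoutI φ) (hz : z ^ n = 1) :
    ∃ (d : PushoutI φ) (x : G true), x ^ n = 1 ∧ z = d * PushoutI.of (φ := φ) true x * d⁻¹ := by
  obtain ⟨c, L, hL, h⟩ := exists_red_conj z
  have hconj : z = c * pr φ L * c⁻¹ := by rw [hL]; group
  have hLn : pr φ L ^ n = 1 := by
    rw [hL]
    have : (c⁻¹ * z * c) ^ n = c⁻¹ * z ^ n * c := by
      have := conj_pow (a := c⁻¹) (b := z) (i := n)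
      rw [inv_inv] at this
      exact this
    rw [this, hz]
    group
  by_cases hLne : L = []
  · subst hLne
    refine ⟨1, 1, one_pow _, ?_⟩
    rw [hconj, pr_nil, map_one]
    group
  · rcases h with h | h
    · match L, h, hLne with
      | [s], _, _ =>
        obtain ⟨b, x⟩ := s
        rw [pr_cons, pr_nil, mul_one] at hLn hconj
        have hx : x ^ n = 1 := by
          apply PushoutI.of_injective hφ b
          rw [map_pow, map_one]
          exact hLn
        cases b with
        | false =>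
          refine ⟨1, 1, one_pow _, ?_⟩
          rw [hconj, h0 x hx, map_one, map_one]
          group
        | true => exact ⟨c, x, hx, hconj⟩
    · exfalso
      obtain ⟨m, rfl⟩ := Nat.exists_eq_succ_of_ne_zero hn
      refine (h (m + 1)).ne_one hφ ?_ ?_
      · rw [rep]
        intro h3
        exact hLne (List.append_eq_nil_iff.mp h3).1
      · rw [pr_rep]
        exact hLn

end

/-! ### The invariant -/

section

variable {E U : Type} [Group E] [Group U] (β : E →* U)

theorem famHom_inj (hβ : Function.Injective β) : ∀ b, Function.Injective (famHom β b)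
  | false => hβ
  | true => fun _ _ h => (Prod.ext_iff.1 h).1

/-- The embedding of `E × C₅`. -/
def ι : E × Multiplicative (ZMod 5) →* Amal β := PushoutI.of (φ := famHom β) true

theorem ι_inj (hβ : Function.Injective β) : Function.Injective (ι β) :=
  PushoutI.of_injective (famHom_inj β hβ) true

theorem comm_prod {E : Type} [Group E] (e : E) (k l : Multiplicative (ZMod 5)) :
    Commute ((e, l) : E × Multiplicative (ZMod 5)) (1, k) := by
  show _ * _ = _ * _
  rw [Prod.mk_mul_mk, Prod.mk_mul_mk, mul_one, one_mul, mul_comm l k]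

theorem mem_ι (hβ : Function.Injective β) (k : Multiplicative (ZMod 5)) (hk : k ≠ 1) (z : Amal β) :
    z ∈ (ι β).range ↔ Commute z (ι β (1, k)) := by
  constructor
  · rintro ⟨⟨e, l⟩, rfl⟩
    exact (comm_prod e k l).map (ι β)
  · intro h
    refine mem_of_comm (φ := famHom β) (famHom_inj β hβ) ((1, k) : E × Multiplicative (ZMod 5)) ?_ ?_
      z h
    · rintro ⟨e, he⟩
      have : ((e, 1) : E × Multiplicative (ZMod 5)) = (1, k) := he
      exact hk (Prod.ext_iff.1 this).2.symm
    · rintro ⟨e, l⟩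
      exact comm_prod e k l

theorem order5 (hE : TF E) (hU : TF U) (hβ : Function.Injective β) (z : Amal β) (hz : z ^ 5 = 1)
    (hz1 : z ≠ 1) : ∃ (d : Amal β) (k : Multiplicative (ZMod 5)), k ≠ 1 ∧
      z = d * ι β (1, k) * d⁻¹ := by
  obtain ⟨d, x, hx, h⟩ := torsion_conj (φ := famHom β) (famHom_inj β hβ) 5 (by norm_num)
    (fun x hx => hU x (isOfFinOrder_iff_pow_eq_one.2 ⟨5, by norm_num, hx⟩)) z hz
  obtain ⟨e, k⟩ := x
  have he : e = 1 := by
    apply hE
    rw [isOfFinOrder_iff_pow_eq_one]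
    refine ⟨5, by norm_num, ?_⟩
    have : (((e, k) : E × Multiplicative (ZMod 5)) ^ 5).1 = 1 := by
      have h5 : ((e, k) : E × Multiplicative (ZMod 5)) ^ 5 = 1 := hx
      rw [h5]
      rfl
    exact this
  subst he
  refine ⟨d, k, ?_, h⟩
  rintro rfl
  apply hz1
  rw [h]
  have : PushoutI.of (φ := famHom β) true ((1, 1) : E × Multiplicative (ZMod 5)) = 1 := map_one _
  erw [this]
  group

end

theorem iso_E {E E' U : Type} [Group E] [Group E'] [Group U] (β : E →* U) (β' : E' →* U)
    (hU : TF U) (hβ : Function.Injective β) (hβ' : Function.Injective β')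
    (h : Nonempty (Amal β ≃* Amal β')) : Nonempty (E ≃* E') := by
  have hE : TF E := by
    intro x hx
    apply hβ
    rw [map_one]
    exact hU _ (MonoidHom.isOfFinOrder β hx)
  have hE' : TF E' := by
    intro x hx
    apply hβ'
    rw [map_one]
    exact hU _ (MonoidHom.isOfFinOrder β' hx)
  obtain ⟨Ψ⟩ := h
  let c : Multiplicative (ZMod 5) := Multiplicative.ofAdd 1
  have hc1 : c ≠ 1 := by decide
  have hc5 : c ^ 5 = 1 := by decide
  have hz5 : (Ψ (ι β (1, c))) ^ 5 = 1 := by
    rw [← map_pow, ← map_pow, Prod.pow_mk, one_pow, hc5]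
    exact (congrArg Ψ (map_one (ι β))).trans (map_one Ψ)
  have hz1 : Ψ (ι β (1, c)) ≠ 1 := by
    intro h
    rw [map_eq_one_iff Ψ Ψ.injective, map_eq_one_iff (ι β) (ι_inj β hβ)] at h
    exact hc1 (Prod.ext_iff.1 h).2
  obtain ⟨d, k, hk, hd⟩ := order5 β' hE' hU hβ' _ hz5 hz1
  let Φ : Amal β ≃* Amal β' := Ψ.trans (MulAut.conj d⁻¹)
  have hΦ : Φ (ι β (1, c)) = ι β' (1, k) := by
    show d⁻¹ * Ψ (ι β (1, c)) * d⁻¹⁻¹ = _
    rw [hd]
    group
  have hmap : (ι β).range.map Φ.toMonoidHom = (ι β').range := by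
    ext y
    constructor
    · rintro ⟨x, hx, rfl⟩
      rw [mem_ι β' hβ' k hk]
      have := (mem_ι β hβ c hc1 x).1 hx
      have h2 := this.map Φ
      rw [hΦ] at h2
      exact h2
    · intro hy
      refine ⟨Φ.symm y, ?_, Φ.apply_symm_apply y⟩
      apply (mem_ι β hβ c hc1 _).2
      have h2 := ((mem_ι β' hβ' k hk y).1 hy).map Φ.symm
      rw [← hΦ, Φ.symm_apply_apply] at h2
      exact h2
  refine tf_prod hE hE' (C := Multiplicative (ZMod 5)) ⟨?_⟩
  exact (MonoidHom.ofInjective (ι_inj β hβ)).trans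
    ((Φ.subgroupMap (ι β).range).trans ((MulEquiv.subgroupCongr hmap).trans
      (MonoidHom.ofInjective (ι_inj β' hβ')).symm))

theorem t : StmInv := by
  intro U _ a b β β' hU hβ hβ' h
  have h2 := iso_E β β' hU hβ hβ' h
  rcases lt_trichotomy a b with hab | hab | hab
  · exact (bg_inj a b hab h2).elim
  · exact hab
  · obtain ⟨e⟩ := h2
    exact (bg_inj b a hab ⟨e.symm⟩).elim

end Pool.Agent.X235.ISO.Inv

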